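import Pool.Agent.TH851.CI.Crit

/-!
The maximal ideal is associated to the `s`-th power of the cover ideal of a blown-up complete
graph on `k` blocks exactly when `k ≤ s + 1`.
-/

set_option autoImplicit false

namespace Pool.Agent.TH851.CI

open Finset MvPolynomial

variable {V : Type*} [Fintype V] [DecidableEq V] {k : ℕ} (b : V → Fin k) (K : Type*) [Field K]

/-- the ideal generated by the variables -/
noncomputable def mm (V : Type*) (K : Type*) [Field K] : Ideal (MvPolynomial V K) :=
  RingHom.ker (constantCoeff (σ := V) (R := K))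

theorem mem_mm {f : MvPolynomial V K} : f ∈ mm V K ↔ constantCoeff f = 0 := RingHom.mem_ker

instance mm_prime : (mm V K).IsPrime := RingHom.ker_isPrime _

omit [Fintype V] [DecidableEq V] in
theorem smul_mk (I : Ideal (MvPolynomial V K)) (r f : MvPolynomial V K) :
    r • (Ideal.Quotient.mk I f) = Ideal.Quotient.mk I (r * f) := rfl

theorem dg_X (u : V →₀ ℕ) (v : V) (j : Fin k) :
    dg b (Finsupp.single v 1 + u) j = dg b u j + if b v = j then 1 else 0 := by
  rw [dg_add, dg_single]
  omega

theorem not_ass {J : Ideal (MvPolynomial V K)} (hk : 0 < k) (hb : Function.Surjective b)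
    (hJ : ∀ (i : Fin k) (C : Finset V), (∀ j, j ≠ i → ∃ v ∈ C, b v = j) →
      (∏ v ∈ C, X v : MvPolynomial V K) ∈ J) (hJ1 : J ≤ crIdeal b K 1) {s : ℕ} (hs : s + 1 < k) :
    mm V K ∉ associatedPrimes (MvPolynomial V K) (MvPolynomial V K ⧸ J ^ s) := by
  intro hmem
  rw [AssociatedPrimes.mem_iff, IsAssociatedPrime, Submodule.isAssociatedPrime_iff] at hmem
  obtain ⟨_, x, hx⟩ := hmem
  obtain ⟨f, rfl⟩ := Ideal.Quotient.mk_surjective x
  have key : ∀ r : MvPolynomial V K, r ∈ mm V K ↔ r * f ∈ J ^ s := by
    intro r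
    rw [hx, Submodule.mem_colon_singleton, Submodule.mem_bot, smul_mk, Ideal.Quotient.eq_zero_iff_mem]
  have hf : f ∉ J ^ s := by
    intro h
    have := (key 1).mpr (by rwa [one_mul])
    rw [mem_mm, map_one] at this
    exact one_ne_zero this
  obtain ⟨u, hu, hcu⟩ : ∃ u ∈ f.support, ¬ Cr b s u := by
    by_contra hcon
    push Not at hcon
    apply hf
    rw [f.as_sum]
    apply Ideal.sum_mem
    intro u hu
    have h1 := monomial_mem_pow b K hk hb hJ s u (hcon u hu)
    have h2 : (monomial u (coeff u f) : MvPolynomial V K) = C (coeff u f) * monomial u 1 := by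
      rw [C_mul_monomial, mul_one]
    rw [h2]
    exact Ideal.mul_mem_left _ _ h1
  have hall : ∀ j : Fin k, 1 ≤ s - dg b u j ∧ ∑ i, (s - dg b u i) ≤ s + 1 := by
    intro j
    obtain ⟨v, hv⟩ := hb j
    have h1 : (X v : MvPolynomial V K) * f ∈ J ^ s := (key (X v)).mp (by rw [mem_mm]; simp)
    have h2 := pow_le_crIdeal b K hJ1 s h1
    have h3 : Cr b s (Finsupp.single v 1 + u) := by
      apply h2
      rw [mem_support_iff, coeff_X_mul]
      exact mem_support_iff.mp hu
    unfold Cr at h3 hcu
    have h4 : ∑ i, (s - dg b u i) ≤ ∑ i, ((s - dg b (Finsupp.single v 1 + u) i) +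
        if j = i then min 1 (s - dg b u j) else 0) := by
      apply sum_le_sum
      intro i _
      rw [dg_X, hv]
      by_cases hij : j = i
      · subst hij
        simp only [if_true]
        omega
      · simp only [hij, if_false]
        omega
    rw [sum_add_distrib, sum_ite_eq univ j, if_pos (mem_univ _)] at h4
    have h5 : min 1 (s - dg b u j) ≤ 1 := min_le_left _ _
    push Not at hcu
    constructor
    · by_contra h6
      have h7 : s - dg b u j = 0 := by omega
      rw [h7] at h4
      simp at h4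
      omega
    · omega
  have h8 : (k : ℕ) ≤ ∑ i, (s - dg b u i) := by
    calc (k : ℕ) = ∑ _i : Fin k, 1 := by simp
      _ ≤ ∑ i, (s - dg b u i) := sum_le_sum fun i _ => (hall i).1
  have h9 := (hall ⟨0, hk⟩).2
  omega

theorem ass {J : Ideal (MvPolynomial V K)} (hk : 2 ≤ k) (hb : Function.Surjective b)
    (hJ : ∀ (i : Fin k) (C : Finset V), (∀ j, j ≠ i → ∃ v ∈ C, b v = j) →
      (∏ v ∈ C, X v : MvPolynomial V K) ∈ J) (hJ1 : J ≤ crIdeal b K 1) {s : ℕ} (hs : k ≤ s + 1) :
    mm V K ∈ associatedPrimes (MvPolynomial V K) (MvPolynomial V K ⧸ J ^ s) := by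
  -- exponents: block `0` gets `k - 2`, the others `s - 1`
  have hk0 : 0 < k := by omega
  choose w hw using hb
  set e : Fin k → ℕ := fun j => if j = ⟨0, hk0⟩ then k - 2 else s - 1 with he
  set u : V →₀ ℕ := ∑ j, Finsupp.single (w j) (e j) with hu
  have hdu : ∀ j, dg b u j = e j := by
    intro j
    have h1 : dg b u j = ∑ i, dg b (Finsupp.single (w i) (e i)) j := by
      unfold dg
      rw [sum_comm]
      apply sum_congr rfl
      intro v _
      rw [hu, Finsupp.finsetSum_apply]
    rw [h1]
    simp_rw [dg_single, hw]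
    simp
  have hsum : ∑ j, (s - dg b u j) = s + 1 := by
    simp_rw [hdu, he]
    rw [← add_sum_erase univ _ (mem_univ (⟨0, hk0⟩ : Fin k))]
    have h1 : ∑ j ∈ univ.erase (⟨0, hk0⟩ : Fin k),
        (s - if j = ⟨0, hk0⟩ then k - 2 else s - 1) = ∑ _j ∈ univ.erase (⟨0, hk0⟩ : Fin k), 1 := by
      apply sum_congr rfl
      intro j hj
      rw [if_neg (ne_of_mem_erase hj)]
      omega
    rw [h1, sum_const, card_erase_of_mem (mem_univ _), card_univ, Fintype.card_fin, if_pos rfl]
    simp only [smul_eq_mul, mul_one]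
    omega
  have hlt : ∀ j, dg b u j < s := by
    intro j
    rw [hdu, he]
    dsimp only
    split_ifs <;> omega
  have hb' : Function.Surjective b := fun j => ⟨w j, hw j⟩
  have hnot : (monomial u 1 : MvPolynomial V K) ∉ J ^ s := by
    intro h
    have h1 := pow_le_crIdeal b K hJ1 s h
    have h2 : Cr b s u := by
      apply h1
      rw [mem_support_iff, coeff_monomial, if_pos rfl]
      exact one_ne_zero
    unfold Cr at h2
    omega
  have hX : ∀ v : V, (X v : MvPolynomial V K) * monomial u 1 ∈ J ^ s := by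
    intro v
    have h1 : (X v : MvPolynomial V K) * monomial u 1 = monomial (Finsupp.single v 1 + u) 1 := by
      rw [X, monomial_mul, mul_one]
    rw [h1]
    apply monomial_mem_pow b K hk0 hb' hJ s
    unfold Cr
    have h2 : ∑ i, (s - dg b (Finsupp.single v 1 + u) i) + 1 = ∑ i, (s - dg b u i) := by
      have h3 : ∑ i, (s - dg b u i) = ∑ i, ((s - dg b (Finsupp.single v 1 + u) i) +
          if b v = i then 1 else 0) := by
        apply sum_congr rfl
        intro i _
        rw [dg_X]
        have := hlt i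
        split_ifs <;> omega
      rw [h3, sum_add_distrib, sum_ite_eq univ (b v), if_pos (mem_univ _)]
    omega
  have hmm : ∀ r ∈ mm V K, r * monomial u 1 ∈ J ^ s := by
    intro r hr
    rw [mem_mm] at hr
    rw [r.as_sum, sum_mul]
    apply Ideal.sum_mem
    intro a ha
    have ha0 : a ≠ 0 := by
      rintro rfl
      rw [mem_support_iff] at ha
      exact ha (by rwa [constantCoeff_eq] at hr)
    obtain ⟨v, hv⟩ := Finsupp.ne_iff.mp ha0
    have h1 : (monomial a (coeff a r) : MvPolynomial V K) =
        monomial (a - Finsupp.single v 1) (coeff a r) * X v := by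
      rw [X, monomial_mul, mul_one, tsub_add_cancel_of_le]
      rw [Finsupp.single_le_iff]
      have : a v ≠ 0 := hv
      omega
    rw [h1, mul_assoc]
    exact Ideal.mul_mem_left _ _ (hX v)
  rw [AssociatedPrimes.mem_iff, IsAssociatedPrime, Submodule.isAssociatedPrime_iff]
  refine ⟨mm_prime K, Ideal.Quotient.mk _ (monomial u 1), ?_⟩
  ext r
  rw [Submodule.mem_colon_singleton, Submodule.mem_bot, smul_mk, Ideal.Quotient.eq_zero_iff_mem]
  constructor
  · exact hmm r
  · intro h
    rw [mem_mm]
    by_contra hc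
    have h1 : (r - C (constantCoeff r)) * monomial u 1 ∈ J ^ s := by
      apply hmm
      rw [mem_mm]
      simp
    have h2 : C (constantCoeff r) * monomial u (1 : K) ∈ J ^ s := by
      have := Ideal.sub_mem _ h h1
      rw [sub_mul, sub_sub_cancel] at this
      exact this
    apply hnot
    have h3 := Ideal.mul_mem_left (J ^ s) (C (constantCoeff r)⁻¹) h2
    rw [← mul_assoc, ← C_mul, inv_mul_cancel₀ hc, C_1, one_mul] at h3
    exact h3

end Pool.Agent.TH851.CI
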