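import Mathlib

/-!
Cover ideals of blown-up complete graphs: membership criterion for powers.
-/

set_option autoImplicit false

namespace Pool.Agent.TH851.CI

open Finset MvPolynomial

variable {V : Type*} [Fintype V] [DecidableEq V] {k : ℕ} (b : V → Fin k)

/-- degree of a monomial in the block `j` -/
def dg (u : V →₀ ℕ) (j : Fin k) : ℕ := ∑ v ∈ univ.filter (fun v => b v = j), u v

/-- criterion for membership in the `s`-th power -/
def Cr (s : ℕ) (u : V →₀ ℕ) : Prop := ∑ j, (s - dg b u j) ≤ s

omit [DecidableEq V] in
theorem dg_add (u w : V →₀ ℕ) (j : Fin k) : dg b (u + w) j = dg b u j + dg b w j := by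
  unfold dg
  rw [← sum_add_distrib]
  rfl

theorem dg_single (v : V) (c : ℕ) (j : Fin k) :
    dg b (Finsupp.single v c) j = if b v = j then c else 0 := by
  unfold dg
  rw [sum_filter]
  have : ∀ x : V, (if b x = j then (Finsupp.single v c) x else 0) =
      if v = x then (if b v = j then c else 0) else 0 := by
    intro x
    by_cases hx : v = x
    · subst hx
      simp
    · simp [Finsupp.single_apply, hx]
  simp_rw [this]
  simp

theorem Cr.add {s t : ℕ} {u w : V →₀ ℕ} (hu : Cr b s u) (hw : Cr b t w) : Cr b (s + t) (u + w) := by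
  unfold Cr at *
  calc ∑ j, (s + t - dg b (u + w) j) ≤ ∑ j, ((s - dg b u j) + (t - dg b w j)) := by
        apply sum_le_sum
        intro j _
        rw [dg_add]
        omega
    _ = ∑ j, (s - dg b u j) + ∑ j, (t - dg b w j) := sum_add_distrib
    _ ≤ s + t := by omega

theorem Cr.mono {s : ℕ} {u : V →₀ ℕ} (w : V →₀ ℕ) (hu : Cr b s u) : Cr b s (w + u) := by
  have h0 : Cr b 0 w := by unfold Cr; simp
  simpa using Cr.add b h0 hu

variable (K : Type*) [Field K]

/-- the ideal of all polynomials whose monomials satisfy the criterion -/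
def crIdeal (s : ℕ) : Ideal (MvPolynomial V K) where
  carrier := {f | ∀ u ∈ f.support, Cr b s u}
  zero_mem' := by intro u hu; simp at hu
  add_mem' := by
    intro f g hf hg u hu
    rcases mem_union.mp (support_add hu) with h | h
    · exact hf u h
    · exact hg u h
  smul_mem' := by
    intro c f hf u hu
    obtain ⟨a, ha, w, hw, rfl⟩ := mem_add.mp (support_mul c f hu)
    exact Cr.mono b a (hf w hw)

theorem mem_crIdeal {s : ℕ} {f : MvPolynomial V K} :
    f ∈ crIdeal b K s ↔ ∀ u ∈ f.support, Cr b s u := Iff.rfl

theorem crIdeal_mul (s t : ℕ) : crIdeal b K s * crIdeal b K t ≤ crIdeal b K (s + t) := by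
  rw [Ideal.mul_le]
  intro f hf g hg u hu
  obtain ⟨a, ha, w, hw, rfl⟩ := mem_add.mp (support_mul f g hu)
  exact Cr.add b (hf a ha) (hg w hw)

theorem pow_le_crIdeal {J : Ideal (MvPolynomial V K)} (hJ : J ≤ crIdeal b K 1) (s : ℕ) :
    J ^ s ≤ crIdeal b K s := by
  induction s with
  | zero =>
    intro f _ u _
    unfold Cr
    simp
  | succ s ih =>
    rw [pow_succ]
    exact (Ideal.mul_mono ih hJ).trans (crIdeal_mul b K s 1)

/-- exponent vector of a set of vertices -/
noncomputable def ex (C : Finset V) : V →₀ ℕ := ∑ v ∈ C, Finsupp.single v 1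

theorem prod_X (C : Finset V) : (∏ v ∈ C, X v : MvPolynomial V K) = monomial (ex C) 1 := by
  unfold ex
  rw [monomial_sum_one]
  rfl

omit [Fintype V] in
theorem ex_apply (C : Finset V) (v : V) : ex C v = if v ∈ C then 1 else 0 := by
  unfold ex
  rw [Finsupp.finsetSum_apply]
  simp [Finsupp.single_apply]

/-- converse: if the products over all sets hitting all blocks but one are in `J`, the
monomials with the criterion are in the powers of `J` -/
theorem monomial_mem_pow {J : Ideal (MvPolynomial V K)} (hk : 0 < k) (hb : Function.Surjective b)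
    (hJ : ∀ (i : Fin k) (C : Finset V), (∀ j, j ≠ i → ∃ v ∈ C, b v = j) →
      (∏ v ∈ C, X v : MvPolynomial V K) ∈ J) (s : ℕ) :
    ∀ u : V →₀ ℕ, Cr b s u → (monomial u 1 : MvPolynomial V K) ∈ J ^ s := by
  induction s with
  | zero => intro u _; simp
  | succ s ih =>
    intro u hu
    unfold Cr at hu
    obtain ⟨i, hi1, hi2⟩ : ∃ i : Fin k, (∀ j, j ≠ i → 1 ≤ dg b u j) ∧
        (∑ j, (s + 1 - dg b u j) = 0 ∨ dg b u i < s + 1) := by
      by_cases h : ∃ i, dg b u i < s + 1
      · obtain ⟨i, hi⟩ := h
        refine ⟨i, fun j hj => ?_, Or.inr hi⟩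
        by_contra hcon
        have h0 : dg b u j = 0 := by omega
        have h1 : (s + 1 - dg b u i) + (s + 1 - dg b u j) ≤ ∑ j, (s + 1 - dg b u j) := by
          have := Finset.sum_le_sum_of_subset (f := fun j => s + 1 - dg b u j)
            (subset_univ ({i, j} : Finset (Fin k)))
          rw [sum_pair (Ne.symm hj)] at this
          exact this
        omega
      · push Not at h
        refine ⟨⟨0, hk⟩, fun j _ => ?_, Or.inl ?_⟩
        · have := h j
          omega
        · apply sum_eq_zero
          intro j _
          have := h j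
          omega
    have hch : ∀ j : Fin k, ∃ v : V, b v = j ∧ (j ≠ i → 1 ≤ u v) := by
      intro j
      by_cases hj : j = i
      · obtain ⟨v, hv⟩ := hb j
        exact ⟨v, hv, fun h => absurd hj h⟩
      · have h1 := hi1 j hj
        unfold dg at h1
        obtain ⟨v, hv, hv1⟩ := exists_ne_zero_of_sum_ne_zero
          (show (∑ v ∈ univ.filter (fun v => b v = j), u v) ≠ 0 by omega)
        exact ⟨v, (mem_filter.mp hv).2, fun _ => by omega⟩
    choose v hv1 hv2 using hch
    have hinj : Function.Injective v := by
      intro a c hac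
      rw [← hv1 a, ← hv1 c, hac]
    set C : Finset V := (univ.erase i).image v with hC
    have hCJ : (∏ v ∈ C, X v : MvPolynomial V K) ∈ J := by
      apply hJ i
      intro j hj
      exact ⟨v j, mem_image.mpr ⟨j, mem_erase.mpr ⟨hj, mem_univ _⟩, rfl⟩, hv1 j⟩
    have hle : ex C ≤ u := by
      intro w
      rw [ex_apply]
      split_ifs with hw
      · obtain ⟨j, hj, rfl⟩ := mem_image.mp hw
        exact hv2 j (ne_of_mem_erase hj)
      · exact Nat.zero_le _
    have hexd : ∀ j, dg b (ex C) j = if j = i then 0 else 1 := by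
      intro j
      unfold dg
      simp_rw [ex_apply]
      rw [sum_ite_mem, sum_const, smul_eq_mul, mul_one]
      split_ifs with hj
      · rw [card_eq_zero, Finset.eq_empty_iff_forall_notMem]
        intro w hw
        obtain ⟨hw1, hw2⟩ := mem_inter.mp hw
        obtain ⟨l, hl, rfl⟩ := mem_image.mp hw2
        have h3 := (mem_filter.mp hw1).2
        rw [hv1] at h3
        exact ne_of_mem_erase hl (h3.trans hj)
      · rw [card_eq_one]
        refine ⟨v j, ?_⟩
        ext w
        rw [mem_inter, mem_filter, mem_singleton, hC, mem_image]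
        constructor
        · rintro ⟨⟨_, h3⟩, l, _, rfl⟩
          rw [hv1] at h3
          rw [h3]
        · rintro rfl
          exact ⟨⟨mem_univ _, hv1 j⟩, j, mem_erase.mpr ⟨hj, mem_univ _⟩, rfl⟩
    have hdec : u = ex C + (u - ex C) := (add_tsub_cancel_of_le hle).symm
    have hd : ∀ j, dg b u j = (if j = i then 0 else 1) + dg b (u - ex C) j := by
      intro j
      rw [← hexd j, ← dg_add, ← hdec]
    have hcr : Cr b s (u - ex C) := by
      unfold Cr
      rcases hi2 with h0 | h0
      · have : ∀ j ∈ univ, s - dg b (u - ex C) j = 0 := by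
          intro j _
          have h1 : s + 1 - dg b u j = 0 := (sum_eq_zero_iff.mp h0) j (mem_univ _)
          have h2 := hd j
          split_ifs at h2 <;> omega
        rw [sum_eq_zero this]
        exact Nat.zero_le _
      · have h1 : ∑ j, (s + 1 - dg b u j) = ∑ j, ((s - dg b (u - ex C) j) + if j = i then 1 else 0) := by
          apply sum_congr rfl
          intro j _
          have h2 := hd j
          by_cases hj : j = i
          · subst hj
            simp only [if_true] at h2 ⊢
            omega
          · simp only [hj, if_false] at h2 ⊢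
            omega
        rw [sum_add_distrib, sum_ite_eq' univ i, if_pos (mem_univ _)] at h1
        omega
    have hmul : (monomial u 1 : MvPolynomial V K) =
        (monomial (u - ex C) 1) * ∏ v ∈ C, X v := by
      rw [prod_X, monomial_mul, mul_one, add_comm, ← hdec]
    rw [hmul, pow_succ]
    exact Ideal.mul_mem_mul (ih _ hcr) hCJ

end Pool.Agent.TH851.CI
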